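import Pool.Agent.MP_caba0b_al.H43.Iface

set_option autoImplicit false

namespace Pool.Agent.MP_caba0b_al.H39

open Pool.Agent.MP_caba0b_al.H43 Set Topology

universe u

theorem join {B : Type u} [Group B] [TopologicalSpace B] {n m : ℕ} (ρ : B →* U n) (σ : B →* U m)
    (h1 : Continuous ρ) (h2 : Continuous σ) :
    ∃ (d : ℕ) (τ : B →* U d), Continuous τ ∧ ∀ b, τ b = 1 → ρ b = 1 ∧ σ b = 1 :=
  ⟨n + m, (bsum n m).comp (ρ.prod σ), continuous_bsum.comp (h1.prodMk h2), fun _ h =>
    Prod.mk.inj (bsum_injective (h.trans (map_one _).symm))⟩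

theorem inj_of_torus {A H : Type} [Group A] [TopologicalSpace A] [Group H]
    {ι : Circle × Circle →* A} {f : A} (h : Nice ι f) (φ : A →* H)
    (hφ : ∀ x, φ (ι x) = 1 → x = 1) : Function.Injective φ := by
  refine (injective_iff_map_eq_one _).2 fun a ha => ?_
  obtain ⟨x, j, rfl⟩ := h.gen a
  have hi : Function.Injective (φ.comp ι) := (injective_iff_map_eq_one _).2 hφ
  have c : ∀ (k : ℕ) (y : Circle × Circle), f ^ k * ι y * (f ^ k)⁻¹ =
      ι ((fun p : Circle × Circle => (p.2⁻¹, p.1))^[k] y) := by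
    intro k
    induction k with
    | zero => simp
    | succ k ih =>
      intro y
      rw [Function.iterate_succ_apply', ← h.conj, ← ih]
      group
  rw [← Nat.div_add_mod j 4, pow_add, pow_mul, h.four, one_pow, one_mul] at ha ⊢
  have e : φ (f ^ (j % 4)) = φ (ι x⁻¹) := by
    rw [map_mul] at ha
    rw [map_inv, map_inv, eq_inv_of_mul_eq_one_right ha]
  let z : Circle := ⟨Complex.I, by simp [Submonoid.unitSphere]⟩
  have z1 : z ≠ 1 := fun k => by
    have := congrArg (fun w : Circle => (w : ℂ).re) k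
    simp [z] at this
  have z2 : z⁻¹ ≠ z := fun k => by
    have := congrArg (fun w : Circle => (w : ℂ).im) k
    norm_num [z] at this
  have k : (fun p : Circle × Circle => (p.2⁻¹, p.1))^[j % 4] (z, 1) = (z, 1) := hi (by
    simp only [MonoidHom.comp_apply]
    rw [← c, map_mul, map_mul, map_inv, e, ← map_inv, ← map_inv, ← map_mul, ← map_mul, ← map_mul,
      ← map_mul, mul_comm x⁻¹, mul_inv_cancel_right])
  have l : j % 4 < 4 := Nat.mod_lt _ (by omega)
  generalize j % 4 = r at *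
  interval_cases r
  · rw [pow_zero, mul_one] at ha ⊢
    rw [hφ x ha, map_one]
  all_goals simp [z1, z2, z1.symm] at k

theorem faithful (pw : PWStmt.{u}) {A : Type} [Group A] [TopologicalSpace A]
    {ι : Circle × Circle →* A} {f : A} (h : Nice ι f) {B : Type u} [Group B] [TopologicalSpace B]
    [IsTopologicalGroup B] [CompactSpace B] [T2Space B] (i : A →* B) (hi : Continuous i)
    (hj : Function.Injective i) (b : B) : ∃ (n : ℕ) (ρ : B →* U n), Continuous ρ ∧
      Function.Injective (ρ.comp i) ∧ (ρ b = 1 → b = 1) := by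
  have o : IsOpen (Circle.centeredArc (Real.pi / 2) ×ˢ Circle.centeredArc (Real.pi / 2)) :=
    (Circle.isOpen_centeredArc _).prod (Circle.isOpen_centeredArc _)
  obtain ⟨n, ρ, h1, h2⟩ := o.isClosed_compl.isCompact.induction_on
    (p := fun s => ∃ (n : ℕ) (ρ : B →* U n), Continuous ρ ∧ ∀ x ∈ s, ρ (i (ι x)) ≠ 1)
    ⟨0, 1, continuous_const, by simp⟩
    (fun s t hs ⟨n, ρ, h1, h2⟩ => ⟨n, ρ, h1, fun x hx => h2 x (hs hx)⟩)
    (fun s t ⟨n, ρ, h1, h2⟩ ⟨m, σ, h3, h4⟩ => by
      obtain ⟨d, τ, h5, h6⟩ := join ρ σ h1 h3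
      exact ⟨d, τ, h5, fun x hx e => hx.elim (fun k => h2 x k (h6 _ e).1) fun k => h4 x k (h6 _ e).2⟩)
    (fun x hx => by
      obtain ⟨n, ρ, h1, h2⟩ := pw B (i (ι x)) fun e => by
        obtain rfl : x = 1 := h.inj (hj (by simpa using e))
        have : (1 : Circle) ∈ Circle.centeredArc (Real.pi / 2) := by
          rw [Circle.mem_centeredArc (by linarith [Real.pi_pos])]
          simp [Real.pi_pos]
        exact hx ⟨this, this⟩
      exact ⟨{y | ρ (i (ι y)) ≠ 1}, mem_nhdsWithin_of_mem_nhds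
        ((isOpen_ne_fun (h1.comp (hi.comp h.cont)) continuous_const).mem_nhds h2),
        n, ρ, h1, fun _ hy => hy⟩)
  obtain ⟨m, σ, h3, h4⟩ : ∃ (m : ℕ) (σ : B →* U m), Continuous σ ∧ (σ b = 1 → b = 1) := by
    by_cases e : b = 1
    · exact ⟨0, 1, continuous_const, fun _ => e⟩
    · obtain ⟨m, σ, h3, h4⟩ := pw B b e
      exact ⟨m, σ, h3, fun k => (h4 k).elim⟩
  obtain ⟨d, τ, h5, h6⟩ := join ρ σ h1 h3
  refine ⟨d, τ, h5, inj_of_torus h _ fun x hx => ?_, fun k => h4 (h6 _ k).2⟩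
  have k : ∀ n : ℕ, x ^ n ∈ Circle.centeredArc (Real.pi / 2) ×ˢ Circle.centeredArc (Real.pi / 2) :=
    fun n => by
      by_contra e
      exact h2 _ e (by rw [map_pow, map_pow, map_pow, (h6 _ hx).1, one_pow])
  exact Prod.ext (Circle.eq_one_of_forall_pow_mem_centeredArc_pi_div_two fun n _ => (k n).1)
    (Circle.eq_one_of_forall_pow_mem_centeredArc_pi_div_two fun n _ => (k n).2)

theorem pos (pw : PWStmt.{u}) (rep : RepStmt) : PosStmt.{u} := by
  intro A _ _ _ _ _ ι f h B _ _ _ _ _ C _ _ _ _ _ i j hi hi' hj hj'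
  choose n ρ a1 a2 a3 using faithful pw h i hi hi'
  choose m σ b1 b2 b3 using faithful pw h j hj hj'
  choose d V W c1 c2 c3 c4 c5 using fun x : B × C => rep A ι f h _ _ ((ρ x.1).comp i)
    ((σ x.2).comp j) ((a1 _).comp hi) (a2 _) ((b1 _).comp hj) (b2 _)
  refine ⟨∀ x : B × C, U (d x), inferInstance, inferInstance, inferInstance, inferInstance,
    inferInstance, MonoidHom.pi fun x => (V x).comp (ρ x.1), MonoidHom.pi fun x => (W x).comp (σ x.2),
    continuous_pi fun x => (c1 x).comp (a1 _), (injective_iff_map_eq_one _).2 fun b e => ?_,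
    continuous_pi fun x => (c3 x).comp (b1 _), (injective_iff_map_eq_one _).2 fun c e => ?_,
    fun a => funext fun x => c5 x a⟩
  · exact a3 b (c2 (b, 1) ((congrFun e (b, 1)).trans (map_one _).symm))
  · exact b3 c (c4 (1, c) ((congrFun e (1, c)).trans (map_one _).symm))

end Pool.Agent.MP_caba0b_al.H39
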